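import Mathlib

set_option autoImplicit false

namespace Pool.Agent.Results.MP_3f847c_gt.Weight

open Set Filter Topology Cardinal TopologicalSpace

/-- scatteredly continuous functions -/
def SC {X : Type} [TopologicalSpace X] (f : X → ℝ) : Prop :=
  ∀ A : Set X, A.Nonempty → ∃ a : A, ContinuousAt (A.restrict f) a

/-- weight -/
noncomputable def w (Z : Type) [TopologicalSpace Z] : Cardinal :=
  max (sInf {c | ∃ B : Set (Set Z), IsTopologicalBasis B ∧ #B = c}) ℵ₀

/-- network weight -/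
noncomputable def nw (Z : Type) [TopologicalSpace Z] : Cardinal :=
  max (sInf {c | ∃ N : Set (Set Z), (∀ z U, IsOpen U → z ∈ U → ∃ A ∈ N, z ∈ A ∧ A ⊆ U) ∧ #N = c}) ℵ₀

def X : Type := ℝ → Bool

def N (σ : ℕ → ℝ × Bool) : Set X := {g | ∀ n, g (σ n).1 = (σ n).2}

instance : TopologicalSpace X where
  IsOpen U := ∀ g ∈ U, ∃ σ, g ∈ N σ ∧ N σ ⊆ U
  isOpen_univ g _ := ⟨fun _ => (0, g 0), fun _ => rfl, subset_univ _⟩
  isOpen_inter U V hU hV g hg := by
    obtain ⟨σ, h1, h2⟩ := hU g hg.1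
    obtain ⟨τ, h3, h4⟩ := hV g hg.2
    refine ⟨fun n => if n % 2 = 0 then σ (n / 2) else τ (n / 2), fun n => ?_, fun f hf => ⟨h2 fun n => ?_, h4 fun n => ?_⟩⟩
    · by_cases h : n % 2 = 0 <;> simp [h, h1 _, h3 _]
    · simpa using hf (2 * n)
    · simpa [Nat.add_mod, show (2 * n + 1) / 2 = n by omega] using hf (2 * n + 1)
  isOpen_sUnion S hS g := fun ⟨U, hU, hg⟩ =>
    let ⟨σ, h1, h2⟩ := hS U hU g hg; ⟨σ, h1, h2.trans (subset_sUnion_of_mem hU)⟩

theorem N_open (σ : ℕ → ℝ × Bool) : IsOpen (N σ) := fun _ hg => ⟨σ, hg, subset_rfl⟩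

theorem N_closed (σ : ℕ → ℝ × Bool) : IsClosed (N σ) := ⟨fun g hg => by
  obtain ⟨n, hn⟩ := not_forall.1 hg
  exact ⟨fun _ => ((σ n).1, g (σ n).1), fun _ => rfl, fun f hf h => hn ((hf 0).symm.trans (h n))⟩⟩

theorem ctble_closed {C : Set X} (hC : C.Countable) : IsClosed C := ⟨fun g hg => by
  rcases C.eq_empty_or_nonempty with rfl | hne
  · exact ⟨fun _ => (0, g 0), fun _ => rfl, by simp⟩
  obtain ⟨c, rfl⟩ := hC.exists_eq_range hne
  have : ∀ n, ∃ t, c n t ≠ g t := fun n => Function.ne_iff.1 fun h => hg ⟨n, h⟩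
  choose t ht using this
  refine ⟨fun n => (t n, g (t n)), fun _ => rfl, ?_⟩
  rintro _ h ⟨n, rfl⟩
  exact ht n (h n)⟩

def K : Set (X → ℝ) := {c | (∀ x, 0 ≤ c x) ∧ ∀ F : Finset X, ∑ x ∈ F, c x ≤ 1}

theorem result : ∃ (X : Type) (_ : TopologicalSpace X), T3Space X ∧ ∃ K : Set (X → ℝ),
    IsCompact K ∧ Convex ℝ K ∧ (∀ f ∈ K, SC f) ∧ nw X < w K := by
  classical
  refine ⟨X, inferInstance, ?_, K, ?_, ?_, ?_, ?_⟩
  · have : T1Space X := ⟨fun x => ctble_closed (countable_singleton x)⟩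
    have : RegularSpace X := RegularSpace.of_exists_mem_nhds_isClosed_subset fun x s hs => by
      obtain ⟨U, h1, h2, h3⟩ := mem_nhds_iff.1 hs
      obtain ⟨σ, h4, h5⟩ := h2 x h3
      exact ⟨N σ, (N_open σ).mem_nhds h4, N_closed σ, h5.trans h1⟩
    infer_instance
  · refine (isCompact_univ_pi fun _ : X => isCompact_Icc (a := (0 : ℝ)) (b := 1)).of_isClosed_subset ?_
      fun c hc x _ => ⟨hc.1 x, by simpa using hc.2 {x}⟩
    simp only [K, ofPred_and, ofPred_forall]
    exact (isClosed_iInter fun x => isClosed_le (by fun_prop) (by fun_prop)).inter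
      (isClosed_iInter fun x => isClosed_le (by fun_prop) (by fun_prop))
  · intro f hf g hg a b ha hb hab
    refine ⟨fun x => add_nonneg (mul_nonneg ha (hf.1 x)) (mul_nonneg hb (hg.1 x)), fun F => ?_⟩
    simp only [Pi.add_apply, Pi.smul_apply, smul_eq_mul, Finset.sum_add_distrib, ← Finset.mul_sum]
    nlinarith [hf.2 F, hg.2 F]
  · rintro f hf A ⟨a, ha⟩
    have h1 : (Function.support f).Countable := (summable_of_sum_le hf.1 hf.2).countable_support
    have h2 : ∀ x : A, ∀ᶠ y : A in 𝓝 x, f y = 0 ∨ y = x := fun x =>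
      mem_of_superset (((ctble_closed (h1.mono (sdiff_subset (t := {x.1})))).isOpen_compl.preimage
        continuous_subtype_val).mem_nhds (by simp)) fun y hy => by
          by_contra h; exact hy ⟨fun e => h (Or.inl e), fun e => h (Or.inr (Subtype.ext e))⟩
    by_cases h : A ⊆ Function.support f
    · refine ⟨⟨a, ha⟩, (continuousAt_const (y := f a)).congr ((h2 ⟨a, ha⟩).mono fun y hy => ?_)⟩
      rw [hy.resolve_left (h y.2)]; rfl
    · obtain ⟨b, hb, hb'⟩ := not_subset.1 h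
      refine ⟨⟨b, hb⟩, (continuousAt_const (y := (0 : ℝ))).congr ((h2 ⟨b, hb⟩).mono fun y hy => ?_)⟩
      rcases hy with hy | rfl
      · exact hy.symm
      · exact (not_not.1 hb').symm
  have h1 : nw X ≤ continuum := by
    refine max_le (le_trans (csInf_le' ⟨range N, fun z U hU hz => ?_, rfl⟩) ?_) aleph0_le_continuum
    · obtain ⟨σ, h1, h2⟩ := hU z hz
      exact ⟨_, ⟨σ, rfl⟩, h1, h2⟩
    · exact mk_range_le.trans (by simp [mk_real])
  have h2 : continuum < #X := by
    rw [show #X = 2 ^ continuum by simp [X, mk_real]]; exact cantor _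
  refine (h1.trans_lt h2).trans_le (le_max_of_le_left (le_csInf ⟨_, _, isTopologicalBasis_opens, rfl⟩ ?_))
  rintro _ ⟨B, hB, rfl⟩
  let δ : X → K := fun x => ⟨Pi.single x 1, fun y => by simp [Pi.single_apply]; split_ifs <;> simp, fun F => by
    rw [Finset.sum_pi_single']; split_ifs <;> simp⟩
  have h3 := fun x : X => hB.exists_subset_of_mem_open (a := δ x) (u := {c : K | 0 < c.1 x}) (by simp [δ])
    (isOpen_lt continuous_const ((continuous_apply x).comp continuous_subtype_val))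
  choose b hb hb1 hb2 using h3
  refine mk_le_of_injective (f := fun x => ⟨b x, hb x⟩) fun x y h => ?_
  have h4 := hb2 y ((show b x = b y from congrArg Subtype.val h) ▸ hb1 x)
  by_contra hne
  simp [δ, Pi.single_eq_of_ne' hne] at h4

end Pool.Agent.Results.MP_3f847c_gt.Weight
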